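import Mathlib
import Pool.Agent.Helper94.EA.Final

open MeasureTheory ProbabilityTheory Filter Topology
open scoped NNReal

namespace Pool.Agent.Results.MP_e8a7ad_pr.ErgodicConvergence

open Pool.Agent.EdgeAveraging

/-- For every `d ≥ 1` and every bounded, stationary, ergodic initial profile on `ℤ^d`, the opinions
of the edge-averaging process converge almost surely at every vertex, and the limit is the mean
`E f_0(0)` of the initial profile. -/
theorem result {Ω : Type*} [MeasurableSpace Ω] (P : Measure Ω) [IsProbabilityMeasure P]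
    (d : ℕ) (hd : 1 ≤ d) (f0 : Ω → Vertex d → ℝ) (N : Edge d → ℝ≥0 → Ω → ℕ)
    (f : ℝ≥0 → Ω → Vertex d → ℝ) (hf : IsEdgeAveragingProcess P f0 N f)
    (hbounded : ∃ M : ℝ, ∀ᵐ ω ∂P, ∀ v, |f0 ω v| ≤ M)
    (hstationary : IsStationaryField P f0) (hergodic : IsErgodicField P f0) :
    ∀ᵐ ω ∂P, ∀ v : Vertex d,
      Tendsto (fun t => f t ω v) atTop (𝓝 (∫ ω', f0 ω' 0 ∂P)) :=
  tendsto_process hd hf hbounded hstationary hergodic

end Pool.Agent.Results.MP_e8a7ad_pr.ErgodicConvergence
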